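import Mathlib
import Pool.Agent.Y99.ZS.AllGroups

namespace Pool.Agent.Results.MP_02fec8_nt.LargeEvenModuli

/-- A set of residues modulo `m` is zero-sum-free if no nonempty subset of it has sum zero. -/
def ZeroSumFree {m : ℕ} (S : Finset (ZMod m)) : Prop :=
  ∀ T : Finset (ZMod m), T ⊆ S → T.Nonempty → ∑ t ∈ T, t ≠ 0

/-- `k m` is the largest size of a zero-sum-free set of residues modulo `m`. -/
noncomputable def k (m : ℕ) : ℕ := sSup {n | ∃ S : Finset (ZMod m), ZeroSumFree S ∧ S.card = n}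

/-- `A_l = {1,…,l} ∪ {m/2, m/2+1, …, m/2+l}` modulo `m` (for even `m`). -/
def A (m l : ℕ) : Finset (ZMod m) :=
  (Finset.Icc 1 l ∪ Finset.Icc (m / 2) (m / 2 + l)).image (fun i : ℕ => (i : ZMod m))

/-- `B_l = A_l \ {l}`. -/
def B (m l : ℕ) : Finset (ZMod m) := (A m l).erase (l : ZMod m)

/-- `s m` is the largest size of a set among `A_1, B_1, A_2, B_2, …` (with `l < m/2`) that is
zero-sum-free modulo `m`. -/
noncomputable def s (m : ℕ) : ℕ :=
  sSup {n | ∃ l : ℕ, 1 ≤ l ∧ l < m / 2 ∧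
    ((ZeroSumFree (A m l) ∧ (A m l).card = n) ∨ (ZeroSumFree (B m l) ∧ (B m l).card = n))}

/-- Core computation: subset sums of natural numbers in `[1,a] ∪ [h, h+b]`. -/
lemma sum_ne (h : ℕ) (U : Finset ℕ) (hU : ∀ x ∈ U, (1 ≤ x ∧ x < h) ∨ h ≤ x)
    (n : ℕ) (hn : n < h)
    (hsum : ∑ x ∈ U.filter (fun x => x < h), x + ∑ x ∈ U.filter (fun x => ¬ x < h), (x - h) ≤ n)
    (hne : U.Nonempty) : ¬ (2 * h ∣ ∑ x ∈ U, x) := by
  intro hd
  have h0 : 0 < h := by omega
  obtain ⟨c, hc⟩ : ∃ c, c = (U.filter (fun x => ¬ x < h)).card := ⟨_, rfl⟩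
  have e1 : ∑ x ∈ U.filter (fun x => ¬ x < h), x =
      c * h + ∑ x ∈ U.filter (fun x => ¬ x < h), (x - h) := by
    rw [hc, ← smul_eq_mul, ← Finset.sum_const, ← Finset.sum_add_distrib]
    apply Finset.sum_congr rfl
    intro x hx
    rw [Finset.mem_filter] at hx
    omega
  have e2 : ∑ x ∈ U, x = c * h + (∑ x ∈ U.filter (fun x => x < h), x +
      ∑ x ∈ U.filter (fun x => ¬ x < h), (x - h)) := by
    rw [← Finset.sum_filter_add_sum_filter_not U (fun x => x < h), e1]
    ring
  set t := ∑ x ∈ U.filter (fun x => x < h), x + ∑ x ∈ U.filter (fun x => ¬ x < h), (x - h) with ht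
  have h3 : h ∣ t := by
    have h4 : h ∣ ∑ x ∈ U, x := (Dvd.intro_left 2 rfl).trans hd
    rw [e2] at h4
    exact (Nat.dvd_add_right (Dvd.intro_left c rfl)).mp h4
  have h5 : t = 0 := Nat.eq_zero_of_dvd_of_lt h3 (by omega)
  have h6 : ∑ x ∈ U.filter (fun x => x < h), x = 0 := by omega
  have h7 : ∑ x ∈ U.filter (fun x => ¬ x < h), (x - h) = 0 := by omega
  have h8 : U.filter (fun x => x < h) = ∅ := by
    rw [Finset.eq_empty_iff_forall_notMem]
    intro x hx
    have h9 := (Finset.sum_eq_zero_iff.mp h6) x hx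
    rw [Finset.mem_filter] at hx
    rcases hU x hx.1 with h10 | h10 <;> omega
  have h9 : U.filter (fun x => ¬ x < h) ⊆ {h} := by
    intro x hx
    have h10 := (Finset.sum_eq_zero_iff.mp h7) x hx
    rw [Finset.mem_filter] at hx
    rw [Finset.mem_singleton]
    omega
  have h10 : U ⊆ {h} := by
    intro x hx
    by_cases hxh : x < h
    · have : x ∈ U.filter (fun x => x < h) := Finset.mem_filter.mpr ⟨hx, hxh⟩
      rw [h8] at this
      simp at this
    · exact h9 (Finset.mem_filter.mpr ⟨hx, hxh⟩)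
  have h11 : U = {h} := by
    rcases Finset.subset_singleton_iff.mp h10 with h | h
    · rw [h] at hne
      exact absurd hne (by simp)
    · exact h
  rw [h11, Finset.sum_singleton] at hd
  have := Nat.le_of_dvd h0 hd
  omega

lemma cast_inj {m : ℕ} (D : Finset ℕ) (hD : ∀ x ∈ D, x < m) :
    Set.InjOn (fun i : ℕ => (i : ZMod m)) (D : Set ℕ) := by
  intro x hx y hy hxy
  have hx' := hD x hx
  have hy' := hD y hy
  have h1 : x ≡ y [MOD m] := (ZMod.natCast_eq_natCast_iff x y m).mp hxy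
  have h2 := Nat.ModEq.eq_of_lt_of_lt h1 hx' hy'
  exact h2

lemma zsf_image (h : ℕ) (D : Finset ℕ) (hD : ∀ x ∈ D, (1 ≤ x ∧ x < h) ∨ (h ≤ x ∧ x < 2 * h))
    (hsum : ∑ x ∈ D.filter (fun x => x < h), x + ∑ x ∈ D.filter (fun x => ¬ x < h), (x - h) < h) :
    ZeroSumFree (D.image (fun i : ℕ => (i : ZMod (2 * h)))) := by
  intro T hT hne h0
  have hinj := cast_inj (m := 2 * h) D (fun x hx => by
    rcases hD x hx with h1 | h1 <;> omega)
  obtain ⟨U, hU, hUT⟩ := Finset.subset_image_iff.mp hT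
  have hUD : U ⊆ D := by exact_mod_cast hU
  rw [← hUT, Finset.sum_image (hinj.mono hU)] at h0
  have hUne : U.Nonempty := by
    rw [← hUT] at hne
    exact Finset.image_nonempty.mp hne
  have h1 : 2 * h ∣ ∑ x ∈ U, x := by
    rw [← ZMod.natCast_eq_zero_iff]
    push_cast
    exact h0
  refine sum_ne h U (fun x hx => ?_) _ hsum ?_ hUne h1
  · rcases hD x (hUD hx) with h2 | h2
    · exact Or.inl h2
    · exact Or.inr h2.1
  · apply Nat.add_le_add
    · exact Finset.sum_le_sum_of_subset (Finset.filter_subset_filter _ hUD)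
    · exact Finset.sum_le_sum_of_subset (Finset.filter_subset_filter _ hUD)

lemma two_sum_Icc (l : ℕ) : 2 * ∑ x ∈ Finset.Icc 1 l, x = l * (l + 1) := by
  induction l with
  | zero => simp
  | succ l ih =>
    rw [Finset.sum_Icc_succ_top (by omega), mul_add, ih]
    ring

lemma two_sum_shift (h l : ℕ) : 2 * ∑ x ∈ Finset.Icc h (h + l), (x - h) = l * (l + 1) := by
  induction l with
  | zero => simp
  | succ l ih =>
    rw [show h + (l + 1) = (h + l) + 1 by ring, Finset.sum_Icc_succ_top (by omega), mul_add, ih]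
    have : h + l + 1 - h = l + 1 := by omega
    rw [this]
    ring

lemma filter_lo (h l : ℕ) (hl : l < h) :
    (Finset.Icc 1 l ∪ Finset.Icc h (h + l)).filter (fun x => x < h) = Finset.Icc 1 l := by
  ext x
  simp only [Finset.mem_filter, Finset.mem_union, Finset.mem_Icc]
  omega

lemma filter_hi (h l : ℕ) (hl : l < h) :
    (Finset.Icc 1 l ∪ Finset.Icc h (h + l)).filter (fun x => ¬ x < h) = Finset.Icc h (h + l) := by
  ext x
  simp only [Finset.mem_filter, Finset.mem_union, Finset.mem_Icc]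
  omega

lemma card_D (h l : ℕ) (hl : l < h) :
    (Finset.Icc 1 l ∪ Finset.Icc h (h + l)).card = 2 * l + 1 := by
  rw [Finset.card_union_of_disjoint, Nat.card_Icc, Nat.card_Icc]
  · omega
  · rw [Finset.disjoint_left]
    intro x hx hx'
    rw [Finset.mem_Icc] at hx hx'
    omega

lemma A_zsf (h l : ℕ) (hl : l * (l + 1) < h) (hl1 : 1 ≤ l) :
    ZeroSumFree (A (2 * h) l) ∧ (A (2 * h) l).card = 2 * l + 1 := by
  have hlh : l < h := by nlinarith
  have h2 : 2 * h / 2 = h := by omega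
  unfold A
  rw [h2]
  constructor
  · apply zsf_image
    · intro x hx
      rw [Finset.mem_union, Finset.mem_Icc, Finset.mem_Icc] at hx
      omega
    · rw [filter_lo h l hlh, filter_hi h l hlh]
      have e1 := two_sum_Icc l
      have e2 := two_sum_shift h l
      omega
  · rw [Finset.card_image_of_injOn, card_D h l hlh]
    apply cast_inj
    intro x hx
    rw [Finset.mem_union, Finset.mem_Icc, Finset.mem_Icc] at hx
    omega

lemma B_zsf (h l : ℕ) (hl : l ^ 2 < h) (hl1 : 1 ≤ l) (hlh : l < h) :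
    ZeroSumFree (B (2 * h) l) ∧ (B (2 * h) l).card = 2 * l := by
  have h2 : 2 * h / 2 = h := by omega
  have hinj : Set.InjOn (fun i : ℕ => (i : ZMod (2 * h)))
      ((Finset.Icc 1 l ∪ Finset.Icc h (h + l) : Finset ℕ) : Set ℕ) := by
    apply cast_inj
    intro x hx
    rw [Finset.mem_union, Finset.mem_Icc, Finset.mem_Icc] at hx
    omega
  have hlD : l ∈ Finset.Icc 1 l ∪ Finset.Icc h (h + l) := by
    rw [Finset.mem_union, Finset.mem_Icc, Finset.mem_Icc]
    omega
  have hB : B (2 * h) l = ((Finset.Icc 1 l ∪ Finset.Icc h (h + l)).erase l).image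
      (fun i : ℕ => (i : ZMod (2 * h))) := by
    unfold B A
    rw [h2]
    ext y
    rw [Finset.mem_erase, Finset.mem_image, Finset.mem_image]
    constructor
    · rintro ⟨hy, x, hx, rfl⟩
      refine ⟨x, Finset.mem_erase.mpr ⟨?_, hx⟩, rfl⟩
      rintro rfl
      exact hy rfl
    · rintro ⟨x, hx, rfl⟩
      rw [Finset.mem_erase] at hx
      refine ⟨?_, x, hx.2, rfl⟩
      intro he
      exact hx.1 (hinj hx.2 hlD he)
  rw [hB]
  constructor
  · apply zsf_image
    · intro x hx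
      rw [Finset.mem_erase, Finset.mem_union, Finset.mem_Icc, Finset.mem_Icc] at hx
      omega
    · have f1 : ((Finset.Icc 1 l ∪ Finset.Icc h (h + l)).erase l).filter (fun x => x < h) =
          (Finset.Icc 1 l).erase l := by
        ext x
        simp only [Finset.mem_filter, Finset.mem_erase, Finset.mem_union, Finset.mem_Icc]
        omega
      have f2 : ((Finset.Icc 1 l ∪ Finset.Icc h (h + l)).erase l).filter (fun x => ¬ x < h) =
          Finset.Icc h (h + l) := by
        ext x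
        simp only [Finset.mem_filter, Finset.mem_erase, Finset.mem_union, Finset.mem_Icc]
        omega
      rw [f1, f2]
      have e1 := two_sum_Icc l
      have e2 := two_sum_shift h l
      have e3 := Finset.add_sum_erase (Finset.Icc 1 l) (fun x => x)
        (Finset.mem_Icc.mpr ⟨hl1, le_rfl⟩)
      nlinarith
  · rw [Finset.card_image_of_injOn, Finset.card_erase_of_mem hlD, card_D h l hlh]
    · omega
    · apply hinj.mono
      intro x hx
      exact Finset.mem_of_mem_erase (by exact_mod_cast hx)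

lemma bddAbove_sizes (m : ℕ) (hm : 0 < m) :
    BddAbove {n | ∃ S : Finset (ZMod m), ZeroSumFree S ∧ S.card = n} := by
  have : NeZero m := ⟨by omega⟩
  refine ⟨m, ?_⟩
  rintro n ⟨S, -, rfl⟩
  have := Finset.card_le_univ S
  rwa [ZMod.card] at this

lemma le_k {m : ℕ} (hm : 0 < m) (S : Finset (ZMod m)) (hS : ZeroSumFree S) : S.card ≤ k m :=
  le_csSup (bddAbove_sizes m hm) ⟨S, hS, rfl⟩

lemma s_le_k {m : ℕ} (hm : 0 < m) : s m ≤ k m := by
  unfold s
  apply csSup_le'
  rintro n ⟨l, -, -, h | h⟩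
  · rw [← h.2]; exact le_k hm _ h.1
  · rw [← h.2]; exact le_k hm _ h.1

lemma le_s {m n : ℕ} (hm : 0 < m) (l : ℕ) (h1 : 1 ≤ l) (h2 : l < m / 2)
    (h : (ZeroSumFree (A m l) ∧ (A m l).card = n) ∨ (ZeroSumFree (B m l) ∧ (B m l).card = n)) :
    n ≤ s m := by
  unfold s
  apply le_csSup
  · refine ⟨k m, ?_⟩
    rintro n ⟨l, -, -, h | h⟩
    · rw [← h.2]; exact le_k hm _ h.1
    · rw [← h.2]; exact le_k hm _ h.1
  · exact ⟨l, h1, h2, h⟩

lemma sqrt_le_s (h : ℕ) (hh : 3 ≤ h) : Nat.sqrt (2 * (2 * h) - 3) ≤ s (2 * h) := by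
  obtain ⟨v, hv⟩ : ∃ v, v = Nat.sqrt (2 * (2 * h) - 3) := ⟨_, rfl⟩
  rw [← hv]
  have h1 : v * v ≤ 2 * (2 * h) - 3 := by rw [hv]; exact Nat.sqrt_le _
  have h3 : 3 ≤ v := by
    rw [hv]
    apply Nat.le_sqrt.mpr
    omega
  rcases Nat.even_or_odd' v with ⟨l, hl | hl⟩
  · have hl1 : 1 ≤ l := by omega
    have h4 : l ^ 2 < h := by
      rw [hl] at h1
      have : 4 * l ^ 2 + 3 ≤ 4 * h := by
        have e : 2 * l * (2 * l) = 4 * l ^ 2 := by ring
        omega
      omega
    have h5 : l < h := by nlinarith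
    exact le_s (by omega) l hl1 (by omega) (Or.inr ⟨(B_zsf h l h4 hl1 h5).1, by
      rw [(B_zsf h l h4 hl1 h5).2, hl]⟩)
  · have hl1 : 1 ≤ l := by omega
    have h4 : l * (l + 1) < h := by
      rw [hl] at h1
      have e : (2 * l + 1) * (2 * l + 1) = 4 * (l * (l + 1)) + 1 := by ring
      omega
    have h5 : l < h := by nlinarith
    exact le_s (by omega) l hl1 (by omega) (Or.inl ⟨(A_zsf h l h4 hl1).1, by
      rw [(A_zsf h l h4 hl1).2, hl]⟩)

/-- **Selfridge's conjecture holds for all sufficiently large even moduli**, and the common value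
is `⌊√(2m-3)⌋`. -/
theorem result : ∃ M : ℕ, ∀ m : ℕ, M ≤ m → Even m →
    k m = s m ∧ k m = Nat.sqrt (2 * m - 3) := by
  obtain ⟨K, hK⟩ := Pool.Agent.Y99.ZS.exact_ncard.{0}
  refine ⟨K ^ 2 + 6, ?_⟩
  intro m hm hev
  obtain ⟨h, rfl⟩ : ∃ h, m = 2 * h := by
    obtain ⟨h, hh⟩ := hev
    exact ⟨h, by omega⟩
  have hh : 3 ≤ h := by nlinarith [sq_nonneg K]
  have h1 := sqrt_le_s h hh
  have h2 := s_le_k (m := 2 * h) (by omega)
  have h3 : k (2 * h) ≤ Nat.sqrt (2 * (2 * h) - 3) := by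
    unfold k
    apply csSup_le'
    rintro n ⟨S, hS, rfl⟩
    by_cases hn : K ≤ S.card
    · have : NeZero (2 * h) := ⟨by omega⟩
      have h4 := hK (ZMod (2 * h)) S
        {t | ∃ B : Finset (ZMod (2 * h)), B ⊆ S ∧ B.Nonempty ∧ ∑ b ∈ B, b = t}
        (fun s => Iff.rfl) (by
          rintro ⟨B, hB, hne, h0⟩
          exact hS B hB hne h0) hn
      have h5 : Set.ncard {t | ∃ B : Finset (ZMod (2 * h)), B ⊆ S ∧ B.Nonempty ∧ ∑ b ∈ B, b = t} ≤
          2 * h - 1 := by
        have h6 : {t | ∃ B : Finset (ZMod (2 * h)), B ⊆ S ∧ B.Nonempty ∧ ∑ b ∈ B, b = t} ⊆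
            ((Finset.univ.erase (0 : ZMod (2 * h)) : Finset (ZMod (2 * h))) : Set (ZMod (2 * h))) := by
          rintro t ⟨B, hB, hne, h0⟩
          rw [Finset.mem_coe, Finset.mem_erase]
          refine ⟨?_, Finset.mem_univ _⟩
          rintro rfl
          exact hS B hB hne h0
        have h7 := Set.ncard_le_ncard h6 (Finset.finite_toSet _)
        rw [Set.ncard_coe_finset, Finset.card_erase_of_mem (Finset.mem_univ _),
          Finset.card_univ, ZMod.card] at h7
        exact h7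
      apply Nat.le_sqrt.mpr
      have e : S.card ^ 2 = S.card * S.card := by ring
      omega
    · push Not at hn
      have h4 : K ≤ Nat.sqrt (2 * (2 * h) - 3) := by
        apply Nat.le_sqrt.mpr
        have e : K ^ 2 = K * K := by ring
        omega
      omega
  exact ⟨by omega, by omega⟩

end Pool.Agent.Results.MP_02fec8_nt.LargeEvenModuli
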